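import Mathlib
import Pool.Agent.H.MP_ea1cff_co.A

set_option autoImplicit false

namespace Pool.Agent.Results.MP_ea1cff_co.Counter

/-- Triangulations of the convex `n`-gon with vertices `0, …, n-1`: sets of `n-3` pairwise
noncrossing diagonals, a diagonal `{a, b}` being written as the pair `(a, b)` with `a < b`. -/
def IsTri (n : ℕ) (T : Finset (ℕ × ℕ)) : Prop :=
  (∀ p ∈ T, p.1 + 2 ≤ p.2 ∧ p.2 < n ∧ ¬ (p.1 = 0 ∧ p.2 + 1 = n)) ∧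
  (∀ p ∈ T, ∀ q ∈ T, ¬ (p.1 < q.1 ∧ q.1 < p.2 ∧ p.2 < q.2)) ∧
  T.card + 3 = n

/-- The `r`-uniform Kneser hypergraph of triangulations has a proper `t`-colouring. -/
def Colourable (r n t : ℕ) : Prop :=
  ∃ c : {T : Finset (ℕ × ℕ) // IsTri n T} → Fin t,
    ∀ S : Finset {T : Finset (ℕ × ℕ) // IsTri n T}, S.card = r →
      (∀ A ∈ S, ∀ B ∈ S, A ≠ B → Disjoint A.1 B.1) → ∃ A ∈ S, ∃ B ∈ S, c A ≠ c B

/-- Its chromatic number. -/
noncomputable def chi (r n : ℕ) : ℕ := sInf {t | Colourable r n t}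

theorem result :
    (∀ m : ℕ, 3 ≤ m → Colourable 3 (2 * m + 4) m) ∧
    ¬ (∀ r : ℕ, 3 ≤ r → ∃ n₀ : ℕ, ∀ n : ℕ, n₀ ≤ n →
        (chi r n : ℤ) = ⌈((n : ℚ) - r) / ((r : ℚ) - 1)⌉) := by
  have h1 : ∀ m : ℕ, 3 ≤ m → Colourable 3 (2 * m + 4) m := by
    intro m hm
    classical
    obtain ⟨c, hc⟩ := Pool.Agent.H.MP_ea1cff_co.main m hm
    refine ⟨fun T => c T.1, fun S hS hd => ?_⟩
    obtain ⟨A, B, C, n1, n2, n3, rfl⟩ := Finset.card_eq_three.1 hS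
    have tr : ∀ T : {T : Finset (ℕ × ℕ) // IsTri (2 * m + 4) T},
        Pool.Agent.H.MP_ea1cff_co.Tr (2 * m + 4) T.1 := fun T => ⟨T.2.1, T.2.2.1, T.2.2.2⟩
    have d1 := Finset.disjoint_left.1 (hd A (by simp) B (by simp) n1)
    have d2 := Finset.disjoint_left.1 (hd A (by simp) C (by simp) n2)
    have d3 := Finset.disjoint_left.1 (hd B (by simp) C (by simp) n3)
    by_cases e : c A.1 = c B.1
    · exact ⟨A, by simp, C, by simp, hc _ _ _ (tr A) (tr B) (tr C) (fun p h => d1 h)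
        (fun p h => d2 h) (fun p h => d3 h) e⟩
    · exact ⟨A, by simp, B, by simp, e⟩
  refine ⟨h1, fun h => ?_⟩
  obtain ⟨n₀, hn⟩ := h 3 le_rfl
  have h2 := hn (2 * (n₀ + 3) + 4) (by omega)
  have h3 : chi 3 (2 * (n₀ + 3) + 4) ≤ n₀ + 3 := Nat.sInf_le (h1 (n₀ + 3) (by omega))
  have h4 := Int.le_ceil ((((2 * (n₀ + 3) + 4 : ℕ) : ℚ) - (3 : ℕ)) / (((3 : ℕ) : ℚ) - 1))
  rw [← h2] at h4
  have h5 : ((chi 3 (2 * (n₀ + 3) + 4) : ℕ) : ℚ) ≤ ((n₀ + 3 : ℕ) : ℚ) := by exact_mod_cast h3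
  push_cast at h4 h5
  linarith

end Pool.Agent.Results.MP_ea1cff_co.Counter
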